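import Pool.Agent.H10.DST

namespace Pool.Agent.Results.MP_930073_lc.Counter
open Set Filter Topology PiNat MeasureTheory Pool.Agent.H10.DST

/-- Analytic relation: projection of a Borel set along a standard Borel space. -/
def An {X : Type} [MeasurableSpace X] (R : X → X → Prop) : Prop :=
  ∃ (Ω : Type) (_ : MeasurableSpace Ω) (_ : StandardBorelSpace Ω) (B : Set ((X × X) × Ω)),
    MeasurableSet B ∧ ∀ x y, R x y ↔ ∃ w, ((x, y), w) ∈ B

/-- Borel reducibility. -/
def Red {X Y : Type} [MeasurableSpace X] [MeasurableSpace Y] (R : X → X → Prop)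
    (R' : Y → Y → Prop) : Prop :=
  ∃ f : X → Y, Measurable f ∧ ∀ x y, R x y ↔ R' (f x) (f y)

/-- Invariant universality of the pair `(S, E)`. -/
def InvUniv {X : Type} [MeasurableSpace X] (S E : X → X → Prop) : Prop :=
  ∀ (Y : Type) [MeasurableSpace Y] [StandardBorelSpace Y] (R : Y → Y → Prop),
    An R → (∀ y, R y y) → (∀ x y z, R x y → R y z → R x z) →
      ∃ B : Set X, MeasurableSet B ∧ (∀ x y, E x y → x ∈ B → y ∈ B) ∧
        Red (fun x y : B => S x y) R ∧ Red R (fun x y : B => S x y)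

abbrev Z := ℕ → Bool
abbrev P := List ℕ × List Bool × List Bool → Bool

def A (p : P) (b : ℕ → ℕ) (x y : Z) : Prop := ∀ n, p (res b n, res x n, res y n) = true

def U (p : P) (x y : Z) : Prop := ∃ (n : ℕ) (c : ℕ → Z) (b : ℕ → ℕ → ℕ), c 0 = x ∧ c n = y ∧
  ∀ i < n, A p (b i) (c i) (c (i + 1))

theorem U_iff (p : P) : U p = Relation.ReflTransGen fun x y => ∃ b, A p b x y := by
  ext x y
  constructor
  · rintro ⟨n, c, b, rfl, rfl, h⟩
    induction n with
    | zero => rfl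
    | succ n ih => exact (ih fun i hi => h i (by omega)).tail ⟨_, h n (by omega)⟩
  · intro h
    induction h with
    | refl => exact ⟨0, fun _ => x, 0, rfl, rfl, by simp⟩
    | @tail y z _ h ih =>
      obtain ⟨n, c, b, h1, h2, h3⟩ := ih
      obtain ⟨d, hd⟩ := h
      refine ⟨n + 1, Function.update c (n + 1) z, Function.update b n d, by simpa, by simp,
        fun i hi => ?_⟩
      rcases (Nat.le_of_lt_succ hi).eq_or_lt with rfl | hi
      · simpa [h2]
      · simpa [hi.ne, Function.update_of_ne (by omega : i ≠ n + 1)] using h3 i hi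

theorem mres {α : Type} [TopologicalSpace α] [DiscreteTopology α] [Countable α] [MeasurableSpace α]
    [BorelSpace α] (n : ℕ) (t : List α) : MeasurableSet {x : ℕ → α | res x n = t} :=
  IsOpen.measurableSet (isOpen_iff_forall_mem_open.2 fun y hy => ⟨cylinder y n, by
    rw [cylinder_eq_res]; exact fun z hz => Eq.trans hz hy, isOpen_cylinder _ _ _,
    self_mem_cylinder _ _⟩)

theorem mA {Ω : Type} [MeasurableSpace Ω] {p : Ω → P} {b : Ω → ℕ → ℕ} {x y : Ω → Z}
    (hp : Measurable p) (hb : Measurable b) (hx : Measurable x) (hy : Measurable y) :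
    Measurable fun w => A (p w) (b w) (x w) (y w) := .forall fun n => by
  have : (fun w => p w (res (b w) n, res (x w) n, res (y w) n) = true) = fun w =>
    ∃ s t u, res (b w) n = s ∧ res (x w) n = t ∧ res (y w) n = u ∧ p w (s, t, u) = true := by simp
  rw [this]
  exact .exists fun s => .exists fun t => .exists fun u =>
    .and (measurableSet_setOfPred.1 (hb (mres n s))) (.and (measurableSet_setOfPred.1 (hx (mres n t)))
      (.and (measurableSet_setOfPred.1 (hy (mres n u))) (measurableSet_setOfPred.1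
        (measurableSet_eq_fun ((measurable_pi_apply _).comp hp) measurable_const))))

theorem univ {Y : Type} [MeasurableSpace Y] [StandardBorelSpace Y] [Nonempty Y] {R : Y → Y → Prop}
    (h : An R) (h1 : ∀ y, R y y) (h2 : ∀ x y z, R x y → R y z → R x z) :
    ∃ p, Red R (U p) ∧ Red (U p) R := by
  classical
  obtain ⟨Ω, _, _, B, hB, hR⟩ := h
  obtain ⟨e, he⟩ : ∃ e : Y → Z, MeasurableEmbedding e :=
    ⟨_, (MeasurableSpace.measurable_mapNatBool Y).measurableEmbedding
      (MeasurableSpace.injective_mapNatBool Y)⟩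
  let r := he.invFun
  have hr : Measurable r := he.measurable_invFun
  have := pol
  have an : AnalyticSet {q : Z × Z | R (r q.1) (r q.2)} := by
    convert MeasurableSet.analyticSet_image (f := (Prod.fst : (Z × Z) × Ω → _))
      ((((hr.comp measurable_fst.fst).prodMk (hr.comp measurable_fst.snd)).prodMk
        measurable_snd) hB) measurable_fst using 1
    ext; simp [hR]
  rw [AnalyticSet] at an
  rcases an with D | ⟨f, f1, f2⟩
  · exact absurd D (Nonempty.ne_empty ⟨(0, 0), h1 _⟩)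
  let p : P := fun t => decide (∃ b n, t = (res b n, res (f b).1 n, res (f b).2 n))
  have hp : ∀ x y, (∃ b, A p b x y) ↔ R (r x) (r y) := fun x y => by
    change _ ↔ (x, y) ∈ {q : Z × Z | R (r q.1) (r q.2)}
    rw [← f2]
    simp only [A, p, decide_eq_true_eq, Prod.mk.injEq]
    refine ⟨fun ⟨b, hb⟩ => ⟨b, ?_⟩, fun ⟨b, hb⟩ => ⟨b, fun n => ⟨b, n, rfl, by rw [hb]; simp⟩⟩⟩
    choose c m h1 h2 h3 using hb
    have e : ∀ n, m n = n := fun n => by simpa using (congrArg List.length (h1 n)).symm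
    simp only [e, res_eq_res] at h1 h2 h3
    exact tendsto_nhds_unique ((f1.tendsto b).comp (tend fun n i hi => (h1 n hi).symm))
      ((tend fun n i hi => (h2 n hi).symm).prodMk_nhds (tend fun n i hi => (h3 n hi).symm))
  have hU : ∀ x y, U p x y ↔ R (r x) (r y) := fun x y => by
    rw [U_iff]
    refine ⟨fun h => ?_, fun h => .single ((hp _ _).2 h)⟩
    induction h with
    | refl => exact h1 _
    | tail _ h ih => exact h2 _ _ _ ih ((hp _ _).1 h)
  exact ⟨p, ⟨e, he.measurable, fun x y => by simp [hU, r, he.leftInverse_invFun _]⟩, r, hr, hU⟩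

abbrev X := (List ℕ → Bool) × P × Z
def IF (T : List ℕ → Bool) : Prop := ∃ b : ℕ → ℕ, ∀ n, T (res b n) = true
def S (x y : X) : Prop := x = y ∨ IF x.1 ∧ IF y.1 ∧ x.2.1 = y.2.1 ∧ U x.2.1 x.2.2 y.2.2

theorem Ur (p x) : U p x x := U_iff p ▸ .refl
theorem Ut {p x y z} (h : U p x y) (h' : U p y z) : U p x z := by
  rw [U_iff] at *; exact h.trans h'

theorem St (x y z) (h : S x y) (h' : S y z) : S x z := by
  rcases h with rfl | h
  · exact h'
  rcases h' with rfl | h'
  · exact .inr h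
  exact .inr ⟨h.1, h'.2.1, h.2.2.1.trans h'.2.2.1, Ut h.2.2.2 (h.2.2.1 ▸ h'.2.2.2)⟩

theorem An.and {Y : Type} [MeasurableSpace Y] {R R' : Y → Y → Prop} (h : An R) (h' : An R') :
    An fun x y => R x y ∧ R' x y := by
  obtain ⟨Ω, _, _, B, hB, hR⟩ := h
  obtain ⟨Ω', _, _, B', hB', hR'⟩ := h'
  exact ⟨Ω × Ω', inferInstance, inferInstance, {q | (q.1, q.2.1) ∈ B ∧ (q.1, q.2.2) ∈ B'},
    .inter ((by fun_prop : Measurable fun q : (Y × Y) × Ω × Ω' => (q.1, q.2.1)) hB)
      ((by fun_prop : Measurable fun q : (Y × Y) × Ω × Ω' => (q.1, q.2.2)) hB'),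
    by simp [hR, hR']⟩

theorem An.swap {Y : Type} [MeasurableSpace Y] {R : Y → Y → Prop} (h : An R) :
    An fun x y => R y x := by
  obtain ⟨Ω, _, _, B, hB, hR⟩ := h
  exact ⟨Ω, inferInstance, inferInstance, _,
    (by fun_prop : Measurable fun q : (Y × Y) × Ω => (q.1.swap, q.2)) hB, by simp [hR]⟩

theorem anS : An S := by
  have m : ∀ {Ω : Type} [MeasurableSpace Ω] {T : Ω → List ℕ → Bool} {b : Ω → ℕ → ℕ},
      Measurable T → Measurable b → Measurable fun w => ∀ n, T w (res (b w) n) = true :=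
    fun {Ω} _ T b hT hb => mA (p := fun w t => T w t.1) (x := 0) (y := 0) (by fun_prop) hb
      measurable_const measurable_const
  refine ⟨(ℕ → ℕ) × (ℕ → ℕ) × ℕ × (ℕ → Z) × (ℕ → ℕ → ℕ), inferInstance, inferInstance,
    {q | q.1.1 = q.1.2 ∨ (∀ n, q.1.1.1 (res q.2.1 n) = true) ∧ (∀ n, q.1.2.1 (res q.2.2.1 n) = true) ∧
      q.1.1.2.1 = q.1.2.2.1 ∧ ∃ n, q.2.2.2.1 = n ∧ q.2.2.2.2.1 0 = q.1.1.2.2 ∧
        q.2.2.2.2.1 n = q.1.2.2.2 ∧ ∀ i < n, A q.1.1.2.1 (q.2.2.2.2.2 i) (q.2.2.2.2.1 i)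
          (q.2.2.2.2.1 (i + 1))}, measurableSet_setOfPred.2 ?_, by simp [S, IF, U, exists_or]⟩
  refine .or (.eq ?_ ?_) (.and (m ?_ ?_) (.and (m ?_ ?_) (.and (.eq ?_ ?_) (.exists fun n =>
    .and (.eq ?_ ?_) (.and (.eq ?_ ?_) (.and (.eq ?_ ?_) (.forall fun i =>
      .imp measurable_const (mA ?_ ?_ ?_ ?_)))))))) <;> fun_prop

theorem result : ∃ (X : Type) (_ : MeasurableSpace X) (_ : StandardBorelSpace X)
    (S E F : X → X → Prop), An S ∧ (∀ x, S x x) ∧ (∀ x y z, S x y → S y z → S x z) ∧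
      An E ∧ Equivalence E ∧ (∀ x y, E x y → S x y ∧ S y x) ∧
      An F ∧ Equivalence F ∧ (∀ x y, F x y → S x y ∧ S y x) ∧
      InvUniv S F ∧ Red E F ∧ ¬ InvUniv S E := by
  have eq : Equivalence fun x y => S x y ∧ S y x :=
    ⟨fun _ => ⟨.inl rfl, .inl rfl⟩, And.symm, fun h k => ⟨St _ _ _ h.1 k.1, St _ _ _ k.2 h.2⟩⟩
  have aE := anS.and anS.swap
  have i0 : IF fun _ => true := ⟨0, by simp⟩
  have key : ∀ p x y, S (fun _ => true, p, x) (fun _ => true, p, y) ↔ U p x y := fun p x y =>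
    ⟨fun h => h.elim (fun h => by cases h; exact Ur _ _) fun h => h.2.2.2,
      fun h => .inr ⟨i0, i0, rfl, h⟩⟩
  refine ⟨X, inferInstance, inferInstance, S, _, fun x y => (S x y ∧ S y x) ∧ x.1 = y.1, anS,
    fun _ => .inl rfl, St, aE, eq, fun _ _ => id, aE.and ⟨Unit, inferInstance, inferInstance,
      {q | q.1.1.1 = q.1.2.1}, measurableSet_eq_fun (by fun_prop) (by fun_prop), by simp⟩,
    ⟨fun x => ⟨eq.1 x, rfl⟩, fun h => ⟨eq.2 h.1, h.2.symm⟩, fun h k => ⟨eq.3 h.1 k.1, h.2.trans k.2⟩⟩,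
    fun _ _ h => h.1, fun Y _ _ R h h1 h2 => ?_, ?_, fun h => ?_⟩
  · rcases isEmpty_or_nonempty Y with _ | _
    · exact ⟨∅, .empty, by simp, ⟨fun x => x.2.elim, .of_discrete, fun x => x.2.elim⟩,
        isEmptyElim, .of_discrete, isEmptyElim⟩
    obtain ⟨p, ⟨f, f1, f2⟩, g, g1, g2⟩ := univ h h1 h2
    refine ⟨{x | x.1 = (fun _ => true) ∧ x.2.1 = p}, .inter
      (measurableSet_eq_fun (by fun_prop) measurable_const)
      (measurableSet_eq_fun (by fun_prop) measurable_const), ?_,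
      ⟨fun x => g x.1.2.2, by fun_prop, ?_⟩,
      fun y => ⟨(_, p, f y), rfl, rfl⟩, Measurable.subtype_mk (by fun_prop), fun x y => ?_⟩
    · rintro x y ⟨⟨rfl | h, -⟩, e⟩ hx
      exacts [hx, ⟨e ▸ hx.1, h.2.2.1 ▸ hx.2⟩]
    · rintro ⟨⟨_, _, x⟩, a1, a2⟩ ⟨⟨_, _, y⟩, b1, b2⟩
      dsimp only at a1 a2 b1 b2
      subst a1 a2 b1 b2
      exact (key _ _ _).trans (g2 _ _)
    · exact (f2 x y).trans (key _ _ _).symm
  · obtain ⟨p, ⟨f, f1, f2⟩, -⟩ := univ aE eq.1 fun _ _ _ => eq.3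
    refine ⟨fun x => (fun _ => true, p, f x), by fun_prop, fun x y => ?_⟩
    simp only [key, ← f2]
    tauto
  · obtain ⟨B, h1, h2, ⟨g, -, h4⟩, f, -, h3⟩ := h Bool (· ≤ ·) ⟨Unit, inferInstance, inferInstance,
      {q | q.1.1 ≤ q.1.2}, .of_discrete, by simp⟩ le_refl fun _ _ _ => le_trans
    have a : IF (f false).1.1 := by
      rcases (h3 false true).1 (by simp) with h | h
      · exact absurd ((h3 true false).2 (.inl h.symm)) (by simp)
      · exact h.1
    have b : ∀ x : B, IF x.1.1 := fun x => by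
      rcases le_total (g x) (g (f false)) with h | h <;> rcases (h4 _ _).2 h with h | h
      exacts [h ▸ a, h.1, h ▸ a, h.2.1]
    refine illf ?_
    convert (by fun_prop : Measurable fun T => (T, (f false).1.2)) h1 using 1
    ext T
    exact ⟨fun h => h2 (f false) _ ⟨.inr ⟨a, h, rfl, Ur _ _⟩, .inr ⟨h, a, rfl, Ur _ _⟩⟩ (f false).2,
      fun h => b ⟨_, h⟩⟩

end Pool.Agent.Results.MP_930073_lc.Counter
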